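import Pool.Agent.N237.Pen.Dyn

set_option autoImplicit false

open Set Filter Topology

namespace Pool.Agent.Results.MP_67b65f_an.DarkRegions

open Pool.Agent.H800R2

/-- For every `n ≥ 2` there is a bounded domain `Ω` of `ℝⁿ` with `C^∞` boundary and there are two
nonempty open sets `W₁, W₂ ⊆ Ω` such that for every point `P` of `Ω` all the fronts from `P` miss
`W₁`, or they all miss `W₂`. So for no `P` in `Ω` do the fronts become dense. -/
theorem result : ∀ n : ℕ, 2 ≤ n → ∃ Ω W₁ W₂ : Set (Euc n), IsSmoothDomain Ω ∧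
    (IsOpen W₁ ∧ W₁.Nonempty ∧ W₁ ⊆ Ω) ∧ (IsOpen W₂ ∧ W₂.Nonempty ∧ W₂ ⊆ Ω) ∧
    ∀ P ∈ Ω, ((∀ t, Disjoint (front Ω P t) W₁) ∨ (∀ t, Disjoint (front Ω P t) W₂)) ∧
      ¬ FrontsBecomeDense Ω P :=
  fun _ hn => N237.Pen.main hn

end Pool.Agent.Results.MP_67b65f_an.DarkRegions
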